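import Pool.Agent.MP_1246c0_nt.H12.SpecR

/-! Solutions of the random system that do not span on the fresh indices. -/

namespace Pool.Agent.MP_1246c0_nt.H12

open Finset

namespace NS

theorem cntG {Λ ι G K : Type} [CommRing Λ] [Fintype ι] [AddCommGroup G] [Module Λ G] [Finite G]
    [Finite K] (V : ι → Submodule Λ G) (p : (ι → G) → Prop) (φ : (ι → G) → K)
    (h : ∀ g g', p g → p g' → φ g = φ g' → ∀ l, g l - g' l ∈ V l) :
    Nat.card {g // p g} ≤ Nat.card K * ∏ l, Nat.card (V l) := by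
  classical
  have hs : ∀ k : K, ∃ s : ι → G, ∀ g, p g → φ g = k → ∀ l, g l - s l ∈ V l := by
    intro k
    by_cases hk : ∃ g, p g ∧ φ g = k
    · obtain ⟨s, hs, hk⟩ := hk
      exact ⟨s, fun g hg hgk => h g s hg hs (hgk.trans hk.symm)⟩
    · exact ⟨0, fun g hg hgk => absurd ⟨g, hg, hgk⟩ hk⟩
  choose s hs using hs
  rw [← Nat.card_pi, ← Nat.card_prod]
  refine Nat.card_le_card_of_injective (fun g : {g // p g} =>
    ((φ g.1, fun l => ⟨g.1 l - s (φ g.1) l, hs _ g.1 g.2 rfl l⟩) : K × ∀ l, V l)) ?_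
  intro g g' hgg
  have h1 : φ g.1 = φ g'.1 := congrArg Prod.fst hgg
  have h2 := congrArg Prod.snd hgg
  apply Subtype.ext
  funext l
  have h3 : g.1 l - s (φ g.1) l = g'.1 l - s (φ g'.1) l := congrArg Subtype.val (congrFun h2 l)
  rw [h1] at h3
  exact sub_left_injective h3

theorem sumFib {α K : Type} [Fintype α] [Finite K] (ψ : α → K) (Q : α → Prop) (w : K → ℝ) (D : ℝ)
    (h : ∀ k, (Nat.card {a // Q a ∧ ψ a = k} : ℝ) * w k ≤ D) :
    ∑ a, ind (Q a) * w (ψ a) ≤ Nat.card K * D := by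
  classical
  have := Fintype.ofFinite K
  rw [← Finset.sum_fiberwise univ ψ]
  calc ∑ k, ∑ a ∈ univ.filter (fun a => ψ a = k), ind (Q a) * w (ψ a) ≤ ∑ _k : K, D := by
        refine Finset.sum_le_sum fun k _ => le_trans (le_of_eq ?_) (h k)
        have e1 : ∑ a ∈ univ.filter (fun a => ψ a = k), ind (Q a) * w (ψ a) =
            ∑ a, (if Q a ∧ ψ a = k then (1 : ℝ) else 0) * w k := by
          rw [Finset.sum_filter]
          refine Finset.sum_congr rfl fun a _ => ?_
          by_cases h1 : ψ a = k <;> by_cases h2 : Q a <;> simp [ind, h1, h2]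
        rw [e1, ← Finset.sum_mul, Finset.sum_boole, Nat.card_eq_fintype_card, Fintype.card_subtype]
    _ = Nat.card K * D := by
        rw [Finset.sum_const, Finset.card_univ, Nat.card_eq_fintype_card, nsmul_eq_mul]

theorem socW (QF : SQF) {Λ ι G κ : Type} [CommRing Λ] [Fintype ι] [DecidableEq ι] [AddCommGroup G]
    [Module Λ G] {st : Λ →+* Λ} {au : Λ →+* F2} {τ : Λ} {N : ℕ} (hL : LR st au τ N)
    (W : Submodule Λ G) (A : Finset ι) (M : κ → ι → Λ)
    (hM : ∀ y : ι → F2, (∀ l, l ∉ A → y l = 0) → (∀ i, ∑ l, au (M i l) * y l = 0) → y = 0)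
    (x : ι → G) (hx : ∀ l, l ∉ A → x l ∈ W) (hMx : ∀ i, ∑ l, M i l • x l ∈ W) (l : ι) :
    x l ∈ W := by
  have key := QF.soc Λ (G ⧸ W) ι (κ ⊕ {l // l ∉ A}) st au τ N
    (Sum.elim M fun l j => if j = l.1 then 1 else 0) hL ?_ (fun j => W.mkQ (x j)) ?_
  · have := congrFun key l
    simpa using this
  · intro y hy
    refine hM y (fun l hl => ?_) fun i => hy (Sum.inl i)
    have := hy (Sum.inr ⟨l, hl⟩)
    simpa [apply_ite au] using this
  · rintro (i | ⟨l, hl⟩)
    · have : W.mkQ (∑ l, M i l • x l) = 0 := by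
        rw [Submodule.mkQ_apply, Submodule.Quotient.mk_eq_zero]
        exact hMx i
      rw [map_sum] at this
      simpa only [map_smul, Sum.elim_inl] using this
    · have : W.mkQ (x l) = 0 := by
        rw [Submodule.mkQ_apply, Submodule.Quotient.mk_eq_zero]
        exact hx l hl
      simp only [Sum.elim_inr, ite_smul, one_smul, zero_smul, Finset.sum_ite_eq', mem_univ, if_true]
      exact this

section Main

variable {Λ ι G : Type} [CommRing Λ] [Fintype ι] [DecidableEq ι] [AddCommGroup G] [Module Λ G]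

omit [DecidableEq ι] in
theorem ap_add (S H : Matrix ι ι Λ) (x : ι → G) (l : ι) :
    ap (S + H) x l = ap S x l + ap H x l := by
  simp only [ap, Matrix.add_apply, add_smul, Finset.sum_add_distrib]

omit [DecidableEq ι] in
theorem ap_mem (H : Matrix ι ι Λ) (x : ι → G) (l : ι) (W : Submodule Λ G)
    (h : ∀ l', H l l' ≠ 0 → x l' ∈ W) : ap H x l ∈ W := by
  refine W.sum_mem fun l' _ => ?_
  by_cases h0 : H l l' = 0
  · rw [h0, zero_smul]
    exact W.zero_mem
  · exact W.smul_mem _ (h l' h0)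

omit [Fintype ι] [DecidableEq ι] in
theorem mem_sp (x : ι → G) (J : Finset ι) {l : ι} (hl : l ∈ J) : x l ∈ sp Λ x J :=
  Submodule.subset_span ⟨l, hl, rfl⟩

omit [Fintype ι] [DecidableEq ι] in
theorem sp_mono (x : ι → G) {J J' : Finset ι} (h : J ⊆ J') : sp Λ x J ≤ sp Λ x J' :=
  Submodule.span_mono (Set.image_mono (by exact_mod_cast h))

omit [Fintype ι] in
theorem xv_false (P : Finset ι) (u : Module.End Λ G) (g : ι → G) : xv P false u g = g := by
  funext l
  simp [xv]

/-- the property of being a solution for some random part -/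
def Qs (st : Λ →+* Λ) (S : Matrix ι ι Λ) (c : ι → Λ) (B F P : Finset ι) (o : Λ) (b : Bool)
    (u : Module.End Λ G) (g : ι → G) : Prop :=
  ∃ H ∈ Hs st B F, (Sol (S + H) c P o b u g ∧ Gen u g) ∧ sp Λ (xv P b u g) F ≠ ⊤

theorem prodIte (A : Finset ι) (a b : ℕ) :
    ∏ l, (if l ∈ A then a else b) = a ^ A.card * b ^ Aᶜ.card := by
  rw [← Finset.prod_mul_prod_compl A]
  congr 1
  · rw [Finset.prod_congr rfl fun l hl => if_pos hl, Finset.prod_const]
  · rw [Finset.prod_congr rfl fun l hl => if_neg (Finset.mem_compl.1 hl), Finset.prod_const]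

theorem case1 [Finite G] (QF : SQF) {st : Λ →+* Λ} {au : Λ →+* F2} {τ : Λ} {N : ℕ}
    {S : Matrix ι ι Λ} {c : ι → Λ} {B F P T J : Finset ι} {o : Λ} {u : Module.End Λ G}
    (hL : LR st au τ N) (hF : Fr au S c B F P T J false) (W W' : Submodule Λ G) :
    Nat.card {g : ι → G // Qs st S c B F P o false u g ∧
      (sp Λ (xv P false u g) F, sp Λ (xv P false u g) B) = (W, W')} ≤
      Nat.card G ^ Bᶜ.card * Nat.card W ^ B.card := by
  have aux : ∀ g : ι → G, Qs st S c B F P o false u g → sp Λ (xv P false u g) F = W →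
      (∀ l ∈ F, g l ∈ W) ∧ (∀ l ∈ T, ∑ l', S l l' • g l' ∈ W) ∧ ∑ l, c l • g l = 0 := by
    rintro g ⟨H, hH, ⟨⟨h1, h2⟩, -⟩, -⟩ hW
    rw [xv_false] at hW h1 h2
    have hg : ∀ l ∈ F, g l ∈ W := fun l hl => hW ▸ mem_sp g F hl
    refine ⟨hg, fun l hl => ?_, h2⟩
    have hP : l ∉ P := Finset.disjoint_left.1 hF.tp hl
    have hlF : l ∉ F := Finset.disjoint_left.1 hF.tf hl
    have e := h1 l
    rw [ap_add, rv, if_neg hP] at e
    have hm : ap H g l ∈ W := ap_mem H g l W fun l' h0 => by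
      by_contra hn
      refine h0 (hH.2.2 l l' ?_)
      rintro ⟨-, -, h | h⟩
      · exact hlF h
      · exact hn (hg l' h)
    have : ap S g l = -ap H g l := eq_neg_of_add_eq_zero_left e
    exact (show ap S g l ∈ W from this ▸ W.neg_mem hm)
  refine le_trans (cntG (K := {l // l ∈ Bᶜ} → G) (fun l => if l ∈ B then W else ⊥) _
    (fun g l => g l.1) ?_) (le_of_eq ?_)
  · rintro g g' ⟨hq, hw⟩ ⟨hq', hw'⟩ hφ l
    obtain ⟨a1, a2, a3⟩ := aux g hq (congrArg Prod.fst hw)
    obtain ⟨b1, b2, b3⟩ := aux g' hq' (congrArg Prod.fst hw')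
    have hoff : ∀ l, l ∉ B → g l - g' l = 0 := fun l hl =>
      sub_eq_zero.2 (congrFun hφ ⟨l, Finset.mem_compl.2 hl⟩)
    by_cases hl : l ∈ B
    · rw [if_pos hl]
      refine socW QF hL W T (κ := Option {l // l ∈ T}) (fun i => i.elim c fun l => S l.1) ?_
        (fun l => g l - g' l) ?_ ?_ l
      · intro y hy hy'
        exact hF.inj y hy (fun l hl => hy' (some ⟨l, hl⟩)) (hy' none)
      · intro l hl
        by_cases hB : l ∈ B
        · have hlF : l ∈ F := by
            by_contra hn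
            exact hl (hF.bt (Finset.mem_sdiff.2 ⟨hB, hn⟩))
          exact W.sub_mem (a1 l hlF) (b1 l hlF)
        · rw [hoff l hB]
          exact W.zero_mem
      · rintro (_ | ⟨l, hl⟩)
        · simp only [Option.elim, smul_sub, Finset.sum_sub_distrib, a3, b3, sub_zero]
          exact W.zero_mem
        · simp only [Option.elim, smul_sub, Finset.sum_sub_distrib]
          exact W.sub_mem (a2 l hl) (b2 l hl)
    · rw [if_neg hl, hoff l hl]
      exact Submodule.zero_mem _
  · have e : ∀ l, Nat.card (if l ∈ B then W else (⊥ : Submodule Λ G) :) =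
        if l ∈ B then Nat.card W else 1 := by
      intro l
      by_cases hl : l ∈ B
      · rw [if_pos hl, if_pos hl]
      · rw [if_neg hl, if_neg hl]
        exact Nat.card_unique
    rw [Finset.prod_congr rfl fun l _ => e l, prodIte, one_pow, mul_one, Nat.card_fun,
      Nat.card_eq_fintype_card (α := {l // l ∈ Bᶜ}), Fintype.card_coe]

theorem case2 [Finite G] (QF : SQF) {st : Λ →+* Λ} {au : Λ →+* F2} {τ : Λ} {N : ℕ}
    {S : Matrix ι ι Λ} {c : ι → Λ} {B F P J : Finset ι} {o : Λ} {b : Bool} {m z γ : ℕ}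
    {u : Module.End Λ G} (hL : LR st au τ N) (hO : Ok st au S c B P J b m z)
    (hG : Nat.card G = 2 ^ γ) (W : Submodule Λ G) :
    Nat.card {g : ι → G // Qs st S c B F P o b u g ∧
      (sp Λ (xv P b u g) F, sp Λ (xv P b u g) B) = (W, W)} * 2 ^ (P ∩ B).card ≤
      Nat.card G * Nat.card G ^ Bᶜ.card * Nat.card W ^ B.card := by
  set W2 : Submodule Λ G := W ⊓ W.comap u with hW2
  set ξ : (ι → G) → G := fun g => if b = true then 0 else o • ∑ l' ∈ P, g l' with hξ
  have aux : ∀ g : ι → G, Qs st S c B F P o b u g → sp Λ (xv P b u g) F = W →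
      sp Λ (xv P b u g) B = W → (∀ l, g l ∈ W) ∧ (∀ l ∈ P, g l + ξ g ∈ W2) ∧ W2 < W := by
    rintro g ⟨H, hH, ⟨⟨h1, -⟩, hgen⟩, hne⟩ hW hW'
    have hB : ∀ l ∈ B, xv P b u g l ∈ W := fun l hl => hW' ▸ mem_sp _ B hl
    have hall : ∀ l, xv P b u g l ∈ W := by
      refine socW QF hL W Bᶜ (κ := {l // l ∈ B ∧ l ∉ P}) (fun l => S l.1) ?_ _ ?_ ?_
      · intro y hy hy'
        exact hO.col y (fun l hl => hy l (by simpa using hl)) fun l hl hP => hy' ⟨l, hl, hP⟩
      · intro l hl
        exact hB l (by simpa using hl)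
      · rintro ⟨l, hl, hP⟩
        have e := h1 l
        rw [ap_add, rv, if_neg hP] at e
        have hm : ap H (xv P b u g) l ∈ W := ap_mem H _ l W fun l' h0 => by
          by_contra hn
          refine h0 (hH.2.2 l l' ?_)
          rintro ⟨-, h, -⟩
          exact hn (hB l' h)
        have : ap S (xv P b u g) l = -ap H (xv P b u g) l := eq_neg_of_add_eq_zero_left e
        exact (show ap S (xv P b u g) l ∈ W from this ▸ W.neg_mem hm)
    have hrv : ∀ l, rv P o b u g l ∈ W := fun l => h1 l ▸ ap_mem _ _ l W fun l' _ => hall l'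
    have hsum : o • ∑ l' ∈ P, xv P b u g l' ∈ W := W.smul_mem _ (W.sum_mem fun l' _ => hall l')
    have hg : (∀ l, g l ∈ W) ∧ ∀ l ∈ P, g l + ξ g ∈ W2 := by
      cases b with
      | false =>
        rw [xv_false] at hall hsum
        refine ⟨hall, fun l hl => ?_⟩
        have e := hrv l
        rw [rv, if_pos hl, if_neg (by simp), xv_false] at e
        have e2 : ξ g = o • ∑ l' ∈ P, g l' := by simp [hξ]
        rw [e2]
        exact ⟨W.add_mem (hall l) hsum, e⟩
      | true =>
        have hP : ∀ l ∈ P, g l ∈ W := fun l hl => by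
          have e := hrv l
          rw [rv, if_pos hl, if_pos rfl] at e
          exact (W.add_mem_iff_left hsum).1 e
        refine ⟨fun l => ?_, fun l hl => ?_⟩
        · by_cases hl : l ∈ P
          · exact hP l hl
          · have e := hall l
            rwa [xv, if_neg fun h => hl h.1] at e
        · have e := hall l
          rw [xv, if_pos ⟨hl, rfl⟩] at e
          have e2 : ξ g = 0 := by simp [hξ]
          rw [e2, add_zero]
          exact ⟨hP l hl, e⟩
    refine ⟨hg.1, hg.2, lt_of_le_of_ne inf_le_left fun he => hne ?_⟩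
    rw [hW]
    refine hgen W (fun w hw => ?_) hg.1
    have : w ∈ W2 := he.symm ▸ hw
    exact this.2
  by_cases hex : ∃ g : ι → G, Qs st S c B F P o b u g ∧
      (sp Λ (xv P b u g) F, sp Λ (xv P b u g) B) = (W, W)
  · obtain ⟨g0, hq0, hw0⟩ := hex
    have hlt := (aux g0 hq0 (congrArg Prod.fst hw0) (congrArg Prod.snd hw0)).2.2
    have h2 := (QF.few Λ G ι γ hG).2.1 W2 W hlt
    have hc := cntG (K := G) (fun l => if l ∈ B then (if l ∈ P then W2 else W) else ⊤)
      (fun g => Qs st S c B F P o b u g ∧ (sp Λ (xv P b u g) F, sp Λ (xv P b u g) B) = (W, W)) ξ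
      (by
        rintro g g' ⟨hq, hw⟩ ⟨hq', hw'⟩ hφ l
        obtain ⟨a1, a2, -⟩ := aux g hq (congrArg Prod.fst hw) (congrArg Prod.snd hw)
        obtain ⟨b1, b2, -⟩ := aux g' hq' (congrArg Prod.fst hw') (congrArg Prod.snd hw')
        by_cases hl : l ∈ B
        · rw [if_pos hl]
          by_cases hP : l ∈ P
          · rw [if_pos hP]
            have := W2.sub_mem (a2 l hP) (b2 l hP)
            rwa [hφ, add_sub_add_right_eq_sub] at this
          · rw [if_neg hP]
            exact W.sub_mem (a1 l) (b1 l)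
        · rw [if_neg hl]
          exact Submodule.mem_top)
    have e : (∏ l, Nat.card (if l ∈ B then (if l ∈ P then W2 else W) else (⊤ : Submodule Λ G) :)) *
        2 ^ (P ∩ B).card ≤ Nat.card W ^ B.card * Nat.card G ^ Bᶜ.card := by
      have e1 : 2 ^ (P ∩ B).card = ∏ l, if l ∈ P ∩ B then 2 else 1 := by
        rw [prodIte, one_pow, mul_one]
      rw [e1, ← Finset.prod_mul_distrib, ← prodIte]
      refine Finset.prod_le_prod' fun l _ => ?_
      by_cases hl : l ∈ B
      · by_cases hP : l ∈ P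
        · rw [if_pos hl, if_pos hP, if_pos (Finset.mem_inter.2 ⟨hP, hl⟩), if_pos hl, mul_comm]
          exact h2
        · rw [if_pos hl, if_neg hP, if_neg fun h => hP (Finset.mem_inter.1 h).1, if_pos hl, mul_one]
      · rw [if_neg hl, if_neg fun h => hl (Finset.mem_inter.1 h).2, if_neg hl, mul_one]
        exact le_of_eq (Nat.card_congr Submodule.topEquiv.toEquiv)
    calc _ ≤ Nat.card G * (∏ l, Nat.card
          (if l ∈ B then (if l ∈ P then W2 else W) else (⊤ : Submodule Λ G) :)) *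
          2 ^ (P ∩ B).card := Nat.mul_le_mul_right _ hc
      _ ≤ Nat.card G * (Nat.card W ^ B.card * Nat.card G ^ Bᶜ.card) := by
          rw [mul_assoc]
          exact Nat.mul_le_mul_left _ e
      _ = _ := by ring
  · have : IsEmpty {g : ι → G // Qs st S c B F P o b u g ∧
        (sp Λ (xv P b u g) F, sp Λ (xv P b u g) B) = (W, W)} := ⟨fun g => hex ⟨g.1, g.2⟩⟩
    rw [Nat.card_of_isEmpty, zero_mul]
    exact Nat.zero_le _

theorem cases12 [Finite G] (QF : SQF) {st : Λ →+* Λ} {au : Λ →+* F2} {τ : Λ} {N : ℕ}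
    {S : Matrix ι ι Λ} {c : ι → Λ} {B F P T J : Finset ι} {o : Λ} {b : Bool} {m z γ : ℕ}
    {u : Module.End Λ G} (hL : LR st au τ N) (hO : Ok st au S c B P J b m z)
    (hF : Fr au S c B F P T J b) (hG : Nat.card G = 2 ^ γ) (W W' : Submodule Λ G) :
    Nat.card {g : ι → G // Qs st S c B F P o b u g ∧
      (sp Λ (xv P b u g) F, sp Λ (xv P b u g) B) = (W, W')} * 2 ^ m ≤
      2 ^ (γ + γ * z) * (Nat.card W' ^ F.card * Nat.card W ^ (B \ F).card) := by
  have hBc : B.card = F.card + (B \ F).card := by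
    rw [Finset.card_sdiff_of_subset hF.fb]
    have := Finset.card_le_card hF.fb
    omega
  have hz : Nat.card G ^ Bᶜ.card ≤ 2 ^ (γ * z) := by
    rw [hG, ← pow_mul]
    exact Nat.pow_le_pow_right (by norm_num) (Nat.mul_le_mul_left _ hO.sml)
  by_cases hWW : W' = W
  · subst hWW
    calc _ ≤ _ * 2 ^ (P ∩ B).card :=
          Nat.mul_le_mul_left _ (Nat.pow_le_pow_right (by norm_num) hO.pen)
      _ ≤ _ := case2 QF hL hO hG W'
      _ ≤ 2 ^ γ * 2 ^ (γ * z) * Nat.card W' ^ B.card := by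
          rw [← hG]
          exact Nat.mul_le_mul_right _ (Nat.mul_le_mul_left _ hz)
      _ = _ := by rw [hBc, pow_add, pow_add]
  · by_cases hex : ∃ g : ι → G, Qs st S c B F P o b u g ∧
        (sp Λ (xv P b u g) F, sp Λ (xv P b u g) B) = (W, W')
    · obtain ⟨g0, -, hw0⟩ := hex
      have e1 : sp Λ (xv P b u g0) F = W := congrArg Prod.fst hw0
      have e2 : sp Λ (xv P b u g0) B = W' := congrArg Prod.snd hw0
      have hle : W ≤ W' := e1 ▸ e2 ▸ sp_mono _ hF.fb
      have h2 := (QF.few Λ G ι γ hG).2.1 W W' (lt_of_le_of_ne hle (Ne.symm hWW))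
      have hm : m ≤ F.card := hO.pen.trans (Finset.card_le_card hF.pf)
      cases b with
      | true =>
        have := hF.all rfl
        subst this
        exact absurd (e2.symm.trans e1) hWW
      | false =>
        calc _ ≤ (Nat.card G ^ Bᶜ.card * Nat.card W ^ B.card) * 2 ^ F.card :=
              Nat.mul_le_mul (case1 QF hL hF W W') (Nat.pow_le_pow_right (by norm_num) hm)
          _ = Nat.card G ^ Bᶜ.card * ((2 * Nat.card W) ^ F.card * Nat.card W ^ (B \ F).card) := by
              rw [hBc, pow_add, mul_pow]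
              ring
          _ ≤ _ := Nat.mul_le_mul (hz.trans (Nat.pow_le_pow_right (by norm_num) (by omega)))
              (Nat.mul_le_mul_right _ (Nat.pow_le_pow_left h2 _))
    · have : IsEmpty {g : ι → G // Qs st S c B F P o b u g ∧
          (sp Λ (xv P b u g) F, sp Λ (xv P b u g) B) = (W, W')} := ⟨fun g => hex ⟨g.1, g.2⟩⟩
      rw [Nat.card_of_isEmpty, zero_mul]
      exact Nat.zero_le _

end Main

theorem ind_mono {p q : Prop} (h : p → q) : ind p ≤ ind q := by
  unfold ind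
  by_cases hp : p
  · rw [if_pos hp, if_pos (h hp)]
  · rw [if_neg hp]
    split_ifs <;> norm_num

end NS

theorem rowNS : OfNS := by
  intro AVG QF CR Λ ι G _ _ _ _ _ _ _ st au τ N S c B F P T J o b m z γ u hL hO hF hG
  classical
  have := Fintype.ofFinite G
  have : Finite (Submodule Λ G) := Finite.of_injective _ SetLike.coe_injective
  rw [AVG.cnt (Matrix ι ι Λ) (ι → G) (Hs st B F) fun H g =>
    (Sol (S + H) c P o b u g ∧ Gen u g) ∧ sp Λ (xv P b u g) F ≠ ⊤]
  set w : Submodule Λ G × Submodule Λ G → ℝ := fun k =>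
    2 ^ (2 * γ * γ) / ((Nat.card k.2 : ℝ) ^ F.card * (Nat.card k.1 : ℝ) ^ (B \ F).card) with hw
  have h1 : ∀ g : ι → G, Ex (Hs st B F) (fun H =>
      ind ((Sol (S + H) c P o b u g ∧ Gen u g) ∧ sp Λ (xv P b u g) F ≠ ⊤)) ≤
      ind (NS.Qs st S c B F P o b u g) * w (sp Λ (xv P b u g) F, sp Λ (xv P b u g) B) := by
    intro g
    by_cases hq : NS.Qs st S c B F P o b u g
    · have e : ind (NS.Qs st S c B F P o b u g) = 1 := by simp [ind, hq]
      rw [e, one_mul]
      refine le_trans (AVG.mono _ _ _ _ fun H _ => NS.ind_mono ?_)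
        (CR Λ ι G st B F γ (xv P b u g) (fun l => rv P o b u g l - ap S (xv P b u g) l)
          hL.inv hF.fb hG)
      rintro ⟨⟨⟨h, -⟩, -⟩, -⟩ l -
      have := h l
      rw [NS.ap_add] at this
      exact eq_sub_of_add_eq' this
    · have e : ind (NS.Qs st S c B F P o b u g) = 0 := by simp [ind, hq]
      rw [e, zero_mul, ← AVG.const _ (Hs st B F) 0]
      refine AVG.mono _ _ _ _ fun H hH => ?_
      have : ¬((Sol (S + H) c P o b u g ∧ Gen u g) ∧ sp Λ (xv P b u g) F ≠ ⊤) :=
        fun h => hq ⟨H, hH, h⟩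
      unfold ind
      rw [if_neg this]
  refine le_trans (Finset.sum_le_sum fun g _ => h1 g) ?_
  refine le_trans (NS.sumFib (fun g : ι → G => (sp Λ (xv P b u g) F, sp Λ (xv P b u g) B))
    (NS.Qs st S c B F P o b u) w (2 ^ (2 * γ * γ) * 2 ^ (γ + γ * z) / 2 ^ m) ?_) ?_
  · rintro ⟨W, W'⟩
    have h := NS.cases12 (o := o) (u := u) QF hL hO hF hG W W'
    have h' : (Nat.card {g : ι → G // NS.Qs st S c B F P o b u g ∧
        (sp Λ (xv P b u g) F, sp Λ (xv P b u g) B) = (W, W')} : ℝ) * 2 ^ m ≤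
        2 ^ (γ + γ * z) * ((Nat.card W' : ℝ) ^ F.card * (Nat.card W : ℝ) ^ (B \ F).card) := by
      exact_mod_cast h
    have p1 : (0 : ℝ) < Nat.card W := by exact_mod_cast Nat.card_pos
    have p2 : (0 : ℝ) < Nat.card W' := by exact_mod_cast Nat.card_pos
    simp only [hw]
    rw [← mul_div_assoc, div_le_div_iff₀ (by positivity) (by positivity)]
    calc _ = 2 ^ (2 * γ * γ) * ((Nat.card {g : ι → G // NS.Qs st S c B F P o b u g ∧
          (sp Λ (xv P b u g) F, sp Λ (xv P b u g) B) = (W, W')} : ℝ) * 2 ^ m) := by ring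
      _ ≤ 2 ^ (2 * γ * γ) * (2 ^ (γ + γ * z) *
          ((Nat.card W' : ℝ) ^ F.card * (Nat.card W : ℝ) ^ (B \ F).card)) :=
          mul_le_mul_of_nonneg_left h' (by positivity)
      _ = _ := by ring
  · have hs : (Nat.card (Submodule Λ G) : ℝ) ≤ 2 ^ (γ * γ) := by
      exact_mod_cast (QF.few Λ G ι γ hG).1
    rw [Nat.card_prod, Nat.cast_mul, ← mul_div_assoc]
    refine div_le_div_of_nonneg_right ?_ (by positivity)
    calc _ ≤ (2 : ℝ) ^ (γ * γ) * 2 ^ (γ * γ) * (2 ^ (2 * γ * γ) * 2 ^ (γ + γ * z)) := by gcongr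
      _ = 2 ^ (γ * γ + γ * γ + (2 * γ * γ + (γ + γ * z))) := by simp only [pow_add]
      _ ≤ _ := pow_le_pow_right₀ (by norm_num) (by nlinarith [Nat.zero_le (γ * z)])

end Pool.Agent.MP_1246c0_nt.H12
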