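import Pool.Agent.MP_1246c0_nt.H25.SpecG
import Pool.Agent.MP_1246c0_nt.H57.SH1

/-! A basis of small height of the governing field. -/

namespace Pool.Agent.MP_1246c0_nt.H25

open NumberField Finset Function Pool.Agent.MP_db5b97_nt.H85
open Pool.Agent.MP_1246c0_nt.H12 Pool.Agent.MP_1246c0_nt.H12.SH1

namespace GVB

section Gen

variable {O : Type} [Fintype O] [DecidableEq O] {d : O → ℕ} {N : ℕ}

/-- A tensor product of Vandermonde matrices is invertible. -/
theorem tens {K : Type} [Field K] (r : ∀ o, Fin (d o) → K) (hr : ∀ o, (r o).Injective)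
    (a : (∀ o, Fin (d o)) → K)
    (h : ∀ i : ∀ o, Fin (d o), ∑ j, a j * ∏ o, r o (i o) ^ (j o : ℕ) = 0) : a = 0 := by
  funext j0
  have hw : ∀ o (j : Fin (d o)), ∑ i, (Matrix.vandermonde (r o))⁻¹ (j0 o) i * r o i ^ (j : ℕ) =
      if j0 o = j then 1 else 0 := by
    intro o j
    have := Matrix.nonsing_inv_mul (Matrix.vandermonde (r o))
      (Ne.isUnit (Matrix.det_vandermonde_ne_zero_iff.2 (hr o)))
    simpa [Matrix.mul_apply, Matrix.one_apply] using congrFun (congrFun this (j0 o)) j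
  calc a j0 = ∑ j, a j * ∏ o, if j0 o = j o then (1 : K) else 0 := by
        rw [sum_eq_single j0 (fun j _ hj => ?_) (by simp)]
        · simp
        · obtain ⟨o, ho⟩ := Function.ne_iff.1 hj
          rw [prod_eq_zero (mem_univ o) (if_neg ho.symm), mul_zero]
    _ = ∑ i : ∀ o, Fin (d o), (∏ o, (Matrix.vandermonde (r o))⁻¹ (j0 o) (i o)) *
          ∑ j, a j * ∏ o, r o (i o) ^ (j o : ℕ) := by
        simp only [← hw, prod_univ_sum, Fintype.piFinset_univ, mul_sum, prod_mul_distrib]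
        rw [sum_comm]
        exact sum_congr rfl fun _ _ => sum_congr rfl fun _ _ => by ring
    _ = 0 := by simp [h]

theorem kit_of {R : Type} [CommRing R] {e : Fin N → R} {K : ℕ} (hN : 1 ≤ N) (hK : 1 ≤ K)
    (h1 : 1 ∈ Box e 1) (h : ∀ i j, e i * e j ∈ Box e K) : Kit e (N * N * K) where
  pos := Nat.mul_pos (Nat.mul_pos hN hN) hK
  one := h1
  mul := by
    rintro L L' x y ⟨a, ha, rfl⟩ ⟨b, hb, rfl⟩
    rw [sum_mul_sum]
    have := box_sum (e := e) univ (fun i => ∑ j, a i • e i * b j • e j)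
      (fun _ => ∑ _j : Fin N, K * L * L') fun i _ => box_sum univ _ _ fun j _ => by
        rw [smul_mul_smul_comm]
        refine box_mono ?_ (box_smul (a i * b j) (h i j))
        have h1 : (a i).natAbs ≤ L := by have := ha i; rw [← Int.natCast_natAbs] at this; omega
        have h2 : (b j).natAbs ≤ L' := by have := hb j; rw [← Int.natCast_natAbs] at this; omega
        rw [Int.natAbs_mul]
        exact (Nat.mul_le_mul_right _ (Nat.mul_le_mul h1 h2)).trans (le_of_eq (by ring))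
    refine box_mono (le_of_eq ?_) this
    simp only [sum_const, card_univ, Fintype.card_fin, smul_eq_mul]
    ring

theorem kitT {R : Type} [CommRing R] {c : O → ℕ} (x : O → R) (hd : ∀ o, 1 ≤ d o)
    (hc : ∀ o, 1 ≤ c o) (hx : ∀ o m, x o ^ m ∈ Box (fun j : Fin (d o) => x o ^ (j : ℕ)) (c o ^ m))
    (ε : Fin N ≃ ∀ o, Fin (d o)) :
    Kit (fun j => ∏ o, x o ^ (ε j o : ℕ)) (N * N * ∏ o, c o ^ (2 * d o)) := by
  refine kit_of (ε.symm fun o => ⟨0, hd o⟩).pos (prod_pos fun o _ => Nat.pow_pos (hc o)) ?_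
    fun i j => ?_
  · simpa using box_basis (e := fun j => ∏ o, x o ^ (ε j o : ℕ)) (ε.symm fun o => ⟨0, hd o⟩)
  · choose a ha hb using fun o => box_mono (L' := c o ^ (2 * d o))
      (Nat.pow_le_pow_right (hc o) (by have := (ε i o).2; have := (ε j o).2; omega))
      (hx o (ε i o + ε j o))
    refine ⟨fun l => ∏ o, a o (ε l o), fun l => ?_, ?_⟩
    · rw [abs_prod, Nat.cast_prod]
      exact prod_le_prod (fun _ _ => abs_nonneg _) fun o _ => ha o _
    · rw [← prod_mul_distrib, ε.sum_comp fun l => (∏ o, a o (l o)) • ∏ o, x o ^ (l o : ℕ)]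
      simp only [← pow_add, hb, prod_univ_sum, Fintype.piFinset_univ, prod_smul]

theorem norm_le {F : Type} [Field F] [NumberField F] (hN : Module.finrank ℚ F = N)
    {e : Fin N → 𝓞 F} {K : ℕ} (h : ∀ (σ : F →ₐ[ℚ] ℂ) j, ‖σ (e j)‖ ≤ K) (L : ℕ) (x : 𝓞 F)
    (hx : x ∈ Box e L) : |Algebra.norm ℤ x| ≤ ((N * K : ℕ) * L) ^ N := by
  obtain ⟨a, ha, hx⟩ := hx
  have h1 := Algebra.norm_eq_prod_embeddings ℚ ℂ (x : F)
  rw [← Algebra.coe_norm_int] at h1
  have h2 : ∀ σ : F →ₐ[ℚ] ℂ, ‖σ x‖ ≤ (N * K : ℕ) * L := by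
    intro σ
    have e1 : σ x = ∑ j, (a j : ℂ) * σ (e j) := by simp [hx]
    rw [e1]
    refine (norm_sum_le_of_le _ (n := fun _ => (L : ℝ) * K) fun j _ => ?_).trans
      (le_of_eq (by simp; ring))
    rw [norm_mul, Complex.norm_intCast]
    exact mul_le_mul (by exact_mod_cast ha j) (h σ j) (by positivity) (by positivity)
  have h3 : ‖((Algebra.norm ℤ x : ℤ) : ℂ)‖ ≤ ((N * K : ℕ) * L) ^ N := by
    have : ((Algebra.norm ℤ x : ℤ) : ℂ) = ∏ σ : F →ₐ[ℚ] ℂ, σ x := by rw [← h1]; simp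
    rw [this, norm_prod]
    refine (prod_le_prod (fun _ _ => norm_nonneg _) fun σ _ => h2 σ).trans (le_of_eq ?_)
    rw [prod_const, card_univ, AlgHom.card, hN]
  rw [Complex.norm_intCast] at h3
  exact_mod_cast h3

end Gen

theorem sign (m : ℕ) (h : Ga) : h (sqr m) = (-1) ^ (chi m h).val * sqr m := by
  unfold chi kch
  rw [Int.cast_natCast]
  split_ifs with h1
  · simp [h1]
  · have : h (sqr m) * h (sqr m) = sqr m * sqr m := by rw [← map_mul, sqr_mul, map_natCast]
    rw [(mul_self_eq_mul_self_iff.1 this).resolve_left h1, show (1 : F2).val = 1 from rfl]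
    simp

theorem kap_eq (A : Ax0) {n : ℕ} {h h' : Ga} (e : h (th n) = h' (th n)) : kap n h = kap n h' := by
  have := (A.kdef n h' (kap n h').val).2 (by simp)
  simpa using (A.kdef n h _).1 (e.trans this)

theorem th_eq (A : Ax0) {n : ℕ} {h h' : Ga} (e : kap n h = kap n h') : h (th n) = h' (th n) :=
  ((A.kdef n h (kap n h').val).2 (by simpa using e)).trans
    ((A.kdef n h' (kap n h').val).2 (by simp)).symm

theorem aut_inj (hC : SCY) {F : Type} [Field F] [NumberField F] {n : ℕ} {θ : F} {γ : F ≃ₐ[ℚ] F}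
    (h : Cy F n θ γ) (t : 𝓞 F) (ht : (t : F) = θ) {p : ℕ} [Fact p.Prime] (h2 : p ≠ 2)
    (ψ : 𝓞 F →+* ZMod p) (a b : F ≃ₐ[ℚ] F) (e : ψ (a • t) = ψ (b • t)) : a = b := by
  obtain ⟨-, hgen, hord, -⟩ := hC.gal F n θ γ h
  have ex : ∀ a : F ≃ₐ[ℚ] F, ∃ k : ZMod (2 ^ n), a = γ⁻¹ ^ k.val := fun a => by
    obtain ⟨m, hm⟩ := hgen a⁻¹
    refine ⟨m, ?_⟩
    rw [ZMod.val_natCast, ← hord, ← orderOf_inv, pow_mod_orderOf, inv_pow, ← hm, inv_inv]
  obtain ⟨k, rfl⟩ := ex a
  obtain ⟨k', rfl⟩ := ex b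
  rw [res_inj hC h t ht h2 ψ e]

variable {I : Type} [Fintype I] [DecidableEq I]

/-- the degrees of the generators -/
def dg (n : ℕ) (I : Type) (o : Option I) : ℕ := o.elim (2 ^ n) fun _ => 2

theorem inj0 (A : Ax0) {n N : ℕ} {z : I → ℕ} (hs : Surjective (pix n z)) {R G K : Type}
    [CommRing R] [Group G] [MulSemiringAction G R] [Field K] (res : Ga → G) (x : Option I → R)
    (x0 : ∀ h h' : Ga, h (th n) = h' (th n) → res h • x none = res h' • x none)
    (x1 : ∀ h j, res h • x (some j) = (-1) ^ (chi (z j) h).val * x (some j))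
    (x2 : ∀ j, x (some j) * x (some j) = z j) (ψ : R →+* K) (h2 : (2 : K) ≠ 0)
    (hz : ∀ j, (z j : K) ≠ 0)
    (hθ : ∀ h h' : Ga, ψ (res h • x none) = ψ (res h' • x none) → h (th n) = h' (th n))
    (ε : Fin N ≃ ∀ o, Fin (dg n I o)) (a : Fin N → K)
    (ha : ∀ σ : G, ∑ j, a j * ψ (σ • ∏ o, x o ^ (ε j o : ℕ)) = 0) : a = 0 := by
  choose g hg using fun k : ℕ => hs ((k : ZMod (2 ^ n)), 0)
  have hg' : ∀ k, kap n (g k) = k := fun k => congrArg Prod.fst (hg k)
  let r : Option I → ℕ → K := fun o k =>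
    o.elim (ψ (res (g k) • x none)) fun j => (-1) ^ k * ψ (x (some j))
  have := tens (d := dg n I) (fun o k => r o k) ?_ (a ∘ ε.symm) fun i => ?_
  · funext j
    simpa using congrFun this (ε j)
  · rintro (_ | j) k k' e
    · have e1 := kap_eq A (hθ _ _ e)
      rw [hg', hg', ZMod.natCast_eq_natCast_iff', Nat.mod_eq_of_lt (b := 2 ^ n) k.2,
        Nat.mod_eq_of_lt (b := 2 ^ n) k'.2] at e1
      exact Fin.ext e1
    · have h0 : ψ (x (some j)) ≠ 0 := fun h => hz j (by
        rw [← map_natCast ψ, ← x2, map_mul, h, zero_mul])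
      have e1 : (-1 : K) ^ (k : ℕ) = (-1) ^ (k' : ℕ) := mul_right_cancel₀ h0 e
      have h3 : (1 : K) ≠ -1 := fun h => h2 (by linear_combination h)
      have a1 : (k : ℕ) < 2 := k.2
      have a2 : (k' : ℕ) < 2 := k'.2
      refine Fin.ext ?_
      generalize (k : ℕ) = u at e1 a1 ⊢
      generalize (k' : ℕ) = v at e1 a2 ⊢
      interval_cases u <;> interval_cases v <;> simp_all [h3.symm]
  · obtain ⟨h, hh⟩ := hs (((i none : ℕ) : ZMod (2 ^ n)), fun j => ((i (some j) : ℕ) : F2))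
    have e : ∀ o, ψ (res h • x o) = r o (i o) := by
      rintro (_ | j)
      · exact congrArg ψ (x0 _ _ (th_eq A ((congrArg Prod.fst hh).trans (hg' _).symm)))
      · have e1 : chi (z j) h = ((i (some j) : ℕ) : F2) := congrFun (congrArg Prod.snd hh) j
        rw [x1, e1, ZMod.val_cast_of_lt (n := 2) (i (some j)).2, map_mul, map_pow, map_neg,
          map_one]
        rfl
    rw [← ha (res h), ← ε.sum_comp]
    refine sum_congr rfl fun j _ => ?_
    simp only [comp_apply, Equiv.symm_apply_apply, Finset.smul_prod', smul_pow', map_prod, map_pow,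
      e]

section Sub

variable {F E : IntermediateField ℚ Om}

theorem ext' {a b : 𝓞 E} (h : ((a : E) : Om) = (b : E)) : a = b :=
  RingOfIntegers.coe_injective (Subtype.ext h)

theorem exinc (h : F ≤ E) : ∃ ι : 𝓞 F →+* 𝓞 E, ∀ a, ((ι a : E) : Om) = (a : F) :=
  ⟨RingOfIntegers.mapRingHom (IntermediateField.inclusion h).toRingHom, fun _ => rfl⟩

theorem exsq (E : IntermediateField ℚ Om) (m : ℕ) (h : sqr m ∈ E) :
    ∃ s : 𝓞 E, ((s : E) : Om) = sqr m ∧ s * s = m := by
  have e : (⟨sqr m, h⟩ : E) ^ 2 = m := Subtype.ext (by simpa [sq] using sqr_mul m)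
  refine ⟨⟨_, IsIntegral.of_pow two_pos (by rw [e]; exact isIntegral_natCast _)⟩, rfl, ?_⟩
  exact RingOfIntegers.coe_injective (by rw [map_mul, map_natCast, ← sq]; exact e)

theorem exres (E : IntermediateField ℚ Om) [NumberField E] (hG : IsGalois ℚ E) :
    ∃ res : Ga → E ≃ₐ[ℚ] E, ∀ h (a : 𝓞 E), (((res h • a : 𝓞 E) : E) : Om) = h (a : E) := by
  have : Normal ℚ E := hG.to_normal
  exact ⟨fun h => h.restrictNormal E, fun h x => h.restrictNormal_commutes E x⟩

end Sub

theorem bound (n c k Z : ℕ) (hk : k ≤ c) (hZ : 1 ≤ Z) :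
    2 ^ n * 2 ^ k * (2 ^ n * 2 ^ k) * ((2 ^ 2 ^ n) ^ (2 * 2 ^ n) * ((Z ^ 2) ^ (2 * 2)) ^ k) ≤
      (2 * Z) ^ (2 * n + 2 ^ n * (2 * 2 ^ n) + 8 * c) := by
  rw [mul_pow 2 Z, ← pow_mul, ← pow_mul, ← pow_mul, ← pow_add, ← pow_add, ← mul_assoc, ← pow_add]
  exact Nat.mul_le_mul (Nat.pow_le_pow_right (by norm_num) (by omega))
    (Nat.pow_le_pow_right hZ (by omega))

end GVB

open GVB in
theorem rowGVB : OfGVB := by
  intro hC hQ n c
  refine ⟨2 * n + 2 ^ n * (2 * 2 ^ n) + 8 * c, ?_⟩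
  intro I _ _ Φ z Z A E hI hZ hz
  have hG := E.gal
  obtain ⟨θ, γ, hθ, cy, hγ⟩ := hQ.cy n
  obtain ⟨-, -, -, hint⟩ := hC.gal _ n θ γ cy
  obtain ⟨ι, hι⟩ := exinc (F := kQ n) (E := kE n z) (IntermediateField.adjoin.mono _ _ _ (by simp))
  obtain ⟨t0, ht0⟩ : ∃ t0 : 𝓞 (kQ n), (t0 : kQ n) = θ := ⟨⟨θ, hint⟩, rfl⟩
  choose s hs using fun j => exsq (kE n z) (z j)
    (IntermediateField.subset_adjoin _ _ (Or.inr ⟨j, rfl⟩))
  obtain ⟨x, xn, xs⟩ : ∃ x : Option I → 𝓞 (kE n z), x none = ι t0 ∧ ∀ j, x (some j) = s j :=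
    ⟨fun o => o.elim (ι t0) s, rfl, fun _ => rfl⟩
  obtain ⟨res, hres⟩ := exres (kE n z) hG
  have hx0 : ((x none : kE n z) : Om) = th n := by rw [xn, hι, ht0, hθ]
  have x0 : ∀ h h' : Ga, h (th n) = h' (th n) → res h • x none = res h' • x none :=
    fun h h' e => ext' (by rw [hres, hres, hx0, e])
  have x1 : ∀ h j, res h • x (some j) = (-1) ^ (chi (z j) h).val * x (some j) := fun h j =>
    ext' (by rw [hres, xs, (hs j).1, sign, ← (hs j).1]; simp)
  have x2 : ∀ j, x (some j) * x (some j) = z j := fun j => by rw [xs, (hs j).2]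
  have hroot : tw^[n] (x none) = 0 := by
    have : tw^[n] t0 = 0 := RingOfIntegers.coe_injective (by
      rw [map_tw, map_zero, ← RingOfIntegers.coe_eq_algebraMap, ht0]; exact cy.root)
    rw [xn, ← map_tw, this, map_zero]
  have ε : Fin (2 ^ n * 2 ^ Fintype.card I) ≃ ∀ o, Fin (dg n I o) :=
    (Fintype.equivFinOfCardEq (by rw [Fintype.card_pi]; simp only [Fintype.card_fin]; simp [dg])).symm
  let cc : Option I → ℕ := fun o => o.elim (2 ^ 2 ^ n) fun _ => Z ^ 2
  have hc : ∀ o, 1 ≤ cc o := by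
    rintro (_ | j)
    exacts [Nat.one_le_two_pow, Nat.one_le_pow _ _ hZ]
  have hb : 2 ^ n * 2 ^ Fintype.card I * (2 ^ n * 2 ^ Fintype.card I) *
      ∏ o, cc o ^ (2 * dg n I o) ≤ (2 * Z) ^ (2 * n + 2 ^ n * (2 * 2 ^ n) + 8 * c) := by
    simpa [cc, dg] using bound n c _ Z hI hZ
  refine ⟨fun j => ∏ o, x o ^ (ε j o : ℕ), _, kitT (c := cc) x ?_ hc ?_ ε, hb, ?_,
    fun L y hy => ?_, fun p ψ hp h2 hpz => ?_⟩
  · rintro (_ | j)
    exacts [Nat.one_le_two_pow, one_le_two]
  · rintro (_ | j) m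
    · obtain ⟨h, hh, hrel⟩ := rel_pow n _ hroot
      exact box_pow _ _ (hc none) h hh hrel m
    · refine box_pow (N := 2) _ _ (hc (some j)) (fun k => if k = 0 then z j else 0)
        (by simpa [sum_range_succ, cc] using hz j) ?_ m
      simp [sq, x2]
  · refine Fintype.linearIndependent_iff.2 fun a ha j => ?_
    have := inj0 A.z E.sur res x x0 x1 x2 (algebraMap _ (kE n z)) two_ne_zero (fun j h0 => ?_)
      (fun h h' e => ?_) ε (fun j => (a j : kE n z)) fun σ => ?_
    · simpa using congrFun this j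
    · obtain ⟨h, hh⟩ := E.sur (0, fun _ => 1)
      have e1 : chi (z j) h = 1 := congrFun (congrArg Prod.snd hh) j
      have e2 : sqr ((z j : ℤ) : Om) = 0 := mul_self_eq_zero.1 ((sqr_mul _).trans (by
        rw [Nat.cast_eq_zero.1 h0]; simp))
      rw [chi, kch, e2, if_pos (map_zero h)] at e1
      exact zero_ne_one e1
    · rw [← hx0, ← hres, ← hres, RingOfIntegers.coe_injective e]
    · have := congrArg (fun y => algebraMap _ (kE n z) (σ • y)) ha
      simp only [Finset.smul_sum, smul_comm σ] at this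
      simpa only [zsmul_eq_mul, map_sum, map_mul, map_intCast, smul_zero, map_zero] using this
  · refine (norm_le E.rk (K := ∏ o, cc o ^ (2 * dg n I o)) (fun σ j => ?_) L y hy).trans ?_
    · have h1 : ∀ o, ‖σ (x o)‖ ≤ cc o := by
        rintro (_ | j)
        · refine (norm_le_two n _ ?_).trans ?_
          · exact (map_tw (σ.toRingHom.comp (algebraMap _ _)) n (x none)).symm.trans
              (by rw [hroot, map_zero])
          · exact_mod_cast Nat.le_self_pow (by positivity) 2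
        · have e1 : ‖σ (x (some j))‖ ^ 2 = z j := by
            rw [← norm_pow, ← map_pow, RingOfIntegers.coe_eq_algebraMap, ← map_pow, sq, x2]
            simp
          have e2 : (z j : ℝ) ≤ Z ^ 2 := by exact_mod_cast hz j
          have e3 : (1 : ℝ) ≤ Z := by exact_mod_cast hZ
          have e4 : ‖σ (x (some j))‖ ≤ Z := (sq_le_sq₀ (by positivity) (by positivity)).1 (e1 ▸ e2)
          simp only [cc, Option.elim_some, Nat.cast_pow]
          nlinarith
      rw [RingOfIntegers.coe_eq_algebraMap, map_prod, map_prod, norm_prod, Nat.cast_prod]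
      refine prod_le_prod (fun _ _ => norm_nonneg _) fun o _ => ?_
      rw [map_pow, map_pow, norm_pow, Nat.cast_pow]
      exact (pow_le_pow_left₀ (norm_nonneg _) (h1 o) _).trans (pow_le_pow_right₀
        (by exact_mod_cast hc o) (by have := (ε j o).2; omega))
    · refine pow_le_pow_left₀ (by positivity) (mul_le_mul_of_nonneg_right ?_ (by positivity)) _
      exact_mod_cast (Nat.mul_le_mul_right _ (Nat.le_mul_self _)).trans hb
  · have : Fact p.Prime := ⟨hp⟩
    refine (Nat.bijective_iff_injective_and_card _).2 ⟨fun a b hab => sub_eq_zero.1 ?_, ?_⟩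
    · refine inj0 A.z E.sur res x x0 x1 x2 ψ (fun h0 => h2 ?_)
        (fun j h0 => hpz j ((ZMod.natCast_eq_zero_iff _ _).1 h0)) (fun h h' e => ?_) ε _
        fun σ => ?_
      · exact (Nat.prime_dvd_prime_iff_eq hp Nat.prime_two).1
          ((ZMod.natCast_eq_zero_iff 2 p).1 h0)
      · have e1 : ∀ h, res h • x none = ι (γ ^ (kap n h).val • t0) := fun h =>
          ext' (by rw [hres, hx0, hι, coe_sm, ht0, ← hγ, hθ])
        rw [e1, e1] at e
        rw [← hθ, hγ, hγ, aut_inj hC cy t0 ht0 h2 (ψ.comp ι) _ _ e]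
      · simp only [Pi.sub_apply, sub_mul, sum_sub_distrib]
        exact sub_eq_zero.2 (congrFun hab σ)
    · rw [Nat.card_fun, Nat.card_fun, IsGalois.card_aut_eq_finrank, E.rk, Nat.card_fin]

end Pool.Agent.MP_1246c0_nt.H25
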